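import Pool.Agent.H330FB.Lib5
import Pool.Agent.H330FB.Spec3b
set_option autoImplicit false
namespace Pool.Agent.H330FB
open Polynomial

/-! ### lists and polynomials -/

section poly
variable {A B : Type} [CommRing A] [CommRing B]

theorem co_coeff_pol (l : List A) (i : ℕ) : (pol l).coeff i = l.getD i 0 := by
  induction l generalizing i with
  | nil => simp [pol]
  | cons x l ih =>
    cases i with
    | zero => simp [pol]
    | succ i => simp [pol, ih, coeff_C_succ]

theorem co_map_pol (φ : A →+* B) (l : List A) : (pol l).map φ = pol (l.map φ) := by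
  induction l with
  | nil => simp [pol]
  | cons x l ih => simp [pol, ih]

theorem co_map_mpol (φ : A →+* B) (l : List A) : (mpol l).map φ = mpol (l.map φ) := by
  simp [mpol, co_map_pol]

theorem co_degree_pol (l : List A) : (pol l).degree < (l.length : WithBot ℕ) := by
  rw [degree_lt_iff_coeff_zero]
  intro m hm
  rw [co_coeff_pol, List.getD_eq_default _ _ hm]

theorem co_mpol_monic (l : List A) : (mpol l).Monic :=
  monic_X_pow_add (co_degree_pol l)

theorem co_mpol_natDegree [Nontrivial A] (l : List A) : (mpol l).natDegree = l.length := by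
  rw [mpol, add_comm]
  apply natDegree_eq_of_degree_eq_some
  rw [degree_add_eq_right_of_degree_lt]
  · simp
  · rw [degree_X_pow]; exact co_degree_pol l

theorem co_pol_range (n : ℕ) (f : ℕ → A) :
    pol ((List.range n).map f) = ∑ i ∈ Finset.range n, C (f i) * X ^ i := by
  ext m
  rw [co_coeff_pol, finsetSum_coeff]
  simp only [coeff_C_mul, coeff_X_pow]
  by_cases hm : m < n
  · rw [Finset.sum_eq_single m]
    · simp [List.getD, hm]
    · intro b _ hb; simp [Ne.symm hb]
    · intro h; simp [hm] at h
  · rw [Finset.sum_eq_zero]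
    · simp [List.getD, hm]
    · intro x hx
      have : x ≠ m := by rintro rfl; exact hm (Finset.mem_range.1 hx)
      simp [Ne.symm this]

theorem co_pol_getD (l : List A) (s : ℕ) (h : l.length = s) :
    ∑ k ∈ Finset.range s, C (l.getD k 0) * X ^ k = pol l := by
  ext m
  rw [co_coeff_pol, finsetSum_coeff]
  simp only [coeff_C_mul, coeff_X_pow]
  by_cases hm : m < s
  · rw [Finset.sum_eq_single m]
    · simp
    · intro b _ hb; simp [Ne.symm hb]
    · intro h; simp [hm] at h
  · rw [Finset.sum_eq_zero, List.getD_eq_default _ _ (by omega)]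
    intro x hx
    have : x ≠ m := by rintro rfl; exact hm (Finset.mem_range.1 hx)
    simp [Ne.symm this]

theorem co_gp_pol {L : Type} [Field L] {n : ℕ} (g : Fin n → L) : gp g = pol (List.ofFn g) := by
  ext m
  rw [co_coeff_pol, gp, finsetSum_coeff]
  simp only [coeff_C_mul, coeff_X_pow]
  by_cases hm : m < n
  · rw [Finset.sum_eq_single ⟨m, hm⟩]
    · simp [List.getD, hm]
    · intro b _ hb
      have : m ≠ (b : ℕ) := by rintro rfl; exact hb rfl
      simp [this]
    · intro h; simp at h
  · rw [Finset.sum_eq_zero, List.getD_eq_default _ _ (by simp; omega)]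
    intro x hx
    have : m ≠ (x : ℕ) := by have := x.2; omega
    simp [this]

theorem co_mpol_congr_mod {l : List A} {c c' : A[X]} (h : mpol l ∣ c - c') :
    c %ₘ mpol l = c' %ₘ mpol l := modByMonic_eq_of_dvd_sub (co_mpol_monic l) h

theorem co_lam_congr {F Y Y' : A[X]} (hF : F.Monic) (h : F ∣ Y - Y') :
    lam F (Y * derivative F) = lam F (Y' * derivative F) := by
  have : F ∣ Y * derivative F - Y' * derivative F := by
    rw [← sub_mul]; exact h.mul_right _
  rw [lam, lam, modByMonic_eq_of_dvd_sub hF this]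

end poly

/-! ### data induced by a map of fields -/

section tymap
variable {F F' : Type} [Field F] [Field F'] (φ : F → F')

theorem co_mapPo (l : List F) : Ty.map φ Po l = l.map φ := rfl
theorem co_mapUn (l : List Unit) : Ty.map φ Un l = l := by
  show List.map (fun x => x) l = l
  simp
theorem co_mapMa (l : List (List F)) : Ty.map φ Ma l = l.map (fun r => r.map φ) := rfl
theorem co_mapTB (x : List (List F) × List (List F)) :
    Ty.map φ TB x = (x.1.map (fun r => r.map φ), x.2.map (fun r => r.map φ)) := rfl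

end tymap

theorem co_isTb {F F' : Type} [Field F] [Field F'] (φ : F →+* F')
    (tb : List (List F) × List (List F)) (h : IsTb tb) : IsTb (Ty.map φ TB tb) := by
  obtain ⟨h1, h2, h3, h4, h5⟩ := h
  have hg : ∀ (l : List (List F)) (r i : ℕ),
      ((l.map (fun r => r.map φ)).getD r []).getD i 0 = φ ((l.getD r []).getD i 0) := by
    intro l r i
    rw [show ([] : List F') = List.map φ [] from rfl, List.getD_map, ← map_zero φ, List.getD_map]
  rw [co_mapTB]
  refine ⟨by simpa using h1, ?_, by simpa using h3, ?_, ?_⟩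
  · intro r hr
    simp only [List.mem_map] at hr
    obtain ⟨r', hr', rfl⟩ := hr
    simpa using h2 r' hr'
  · intro r hr
    simp only [List.mem_map] at hr
    obtain ⟨r', hr', rfl⟩ := hr
    simpa using h4 r' hr'
  · intro i hi i' hi' j hj
    have := congrArg φ (h5 i hi i' hi' j hj)
    simp only [map_sum, map_mul, ← hg] at this
    simp only
    rw [this]
    split_ifs <;> simp

/-! ### the fibres -/

theorem co_fib {K L : Type} [Field K] [Field L] [Algebra K L] (S : List (List K)) (a : L) :
    fib (mbiv S) a =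
      mpol ((Ty.map (algebraMap K L) Ma S).map (fun r => (pol r).eval a)) := by
  have h : ∀ r : List K, evt a (pol r) = (pol (r.map (algebraMap K L))).eval a := by
    intro r
    rw [← co_map_pol, eval_map]
    rfl
  rw [fib, mbiv, biv, co_mapMa]
  simp only [Polynomial.map_add, Polynomial.map_pow, map_X, co_map_pol, mpol, List.map_map,
    List.length_map]
  congr 2
  apply List.map_congr_left
  intro r _
  simp only [Function.comp]
  exact h r

/-! ### the trace -/

theorem co_trace {K L : Type} [Field K] [Fintype K] [Field L] [Fintype L] [Algebra K L]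
    (h2 : Module.finrank K L = 2) (z : L) :
    algebraMap K L (Algebra.trace K L z) = z + z ^ Fintype.card K := by
  rw [FiniteField.algebraMap_trace_eq_sum_pow, h2]
  simp [Finset.sum_range_succ]

/-! ### fit -/

theorem co_fit_map {α β : Type} (f : α → β) (n : ℕ) (z : α) (l : List α) :
    fit n (f z) (l.map f) = (fit n z l).map f := by
  induction n generalizing l with
  | zero => rfl
  | succ n ih =>
    cases l with
    | nil =>
      have := ih []
      simp only [List.map_nil] at this
      simp [fit, this]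
    | cons x l => simp [fit, ih l]

theorem co_pol_fit {A : Type} [CommRing A] (n : ℕ) (l : List A) (h : l.length ≤ n) :
    pol (fit n 0 l) = pol l := by
  induction n generalizing l with
  | zero =>
    have : l = [] := List.length_eq_zero_iff.1 (by omega)
    subst this; rfl
  | succ n ih =>
    cases l with
    | nil =>
      have := ih [] (by simp)
      simp [fit, pol, this]
    | cons x l => simp at h; simp [fit, pol, ih l h]

theorem co_getD_fit {A : Type} [CommRing A] (n : ℕ) (l : List A) (h : l.length ≤ n) (i : ℕ) :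
    (fit n 0 l).getD i 0 = l.getD i 0 := by
  rw [← co_coeff_pol, ← co_coeff_pol, co_pol_fit n l h]

/-! ### the algebra `R` -/

section alg
variable {K R : Type} [Field K] [CommRing R] (π : K[X] →+* R)

theorem co_aeval (f : K[X]) :
    (letI := (π.comp (C : K →+* K[X])).toAlgebra; (aeval (π X) f : R)) = π f := by
  let _ := (π.comp (C : K →+* K[X])).toAlgebra
  have : (aeval (π X) : K[X] →ₐ[K] R).toRingHom = π := by
    apply Polynomial.ringHom_ext
    · intro c
      simp only [AlgHom.toRingHom_eq_coe, RingHom.coe_coe, aeval_C]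
      rfl
    · simp
  exact congrArg (fun h : K[X] →+* R => h f) this

end alg

/-! ### programs -/

section prog
variable {F : Type} [Field F] [DecidableEq F]
variable {s : List (Ty × Ty)} {a b c d e g σ τ : Ty}

theorem co_un_add (m n : ℕ) : un m ++ un n = un (m + n) := by
  simp [un]

@[simp] theorem co_un_length (n : ℕ) : (un n).length = n := by simp [un]

/-- length in unary -/
def coLen : Pr s (.list a) Un := .comp (.pair .star .id) (mapP (c := .unit) .star)

@[simp] theorem val_coLen (v : SV F s) (x : Ty.D F (.list a)) :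
    (coLen : Pr s (.list a) Un).val v x = un (List.length x) := by
  simp only [coLen, val_comp, val_pair, val_star, val_id, val_mapP, un]
  exact List.map_const'

theorem cost_coLen (v : SV F s) (k : SC F s) (x : Ty.D F (.list a)) :
    (coLen : Pr s (.list a) Un).cost v k x ≤ 14 * List.length x + 8 := by
  have := cost_mapP_le (s := s) (c := .unit) (a := a) (b := .unit) .star v k ((), x) 1
    (fun _ _ => by simp)
  simp [coLen] at this ⊢
  omega

/-- twenty in unary -/
def coTw : Pr s a Un :=
  .comp (ap2 .cons .star (ap2 .cons .star (ap2 .cons .star (ap2 .cons .star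
    (ap2 .cons .star .nil)))))
    (.comp (ap2 appP .id .id) (ap2 appP .id .id))

@[simp] theorem val_coTw (v : SV F s) (x : Ty.D F a) :
    (coTw : Pr s a Un).val v x = un 20 := by
  simp [coTw, un]

theorem cost_coTw (v : SV F s) (k : SC F s) (x : Ty.D F a) :
    (coTw : Pr s a Un).cost v k x ≤ 400 := by
  have h1 := cost_appP (s := s) (a := .unit) (F := F) v k
    (((() :: () :: () :: () :: () :: [] : List Unit), (() :: () :: () :: () :: () :: [] : List Unit)))
  have h2 := cost_appP (s := s) (a := .unit) (F := F) v k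
    (((() :: () :: () :: () :: () :: [] : List Unit) ++ (() :: () :: () :: () :: () :: [] : List Unit),
    ((() :: () :: () :: () :: () :: [] : List Unit) ++ (() :: () :: () :: () :: () :: [] : List Unit))))
  simp [coTw] at h1 h2 ⊢
  omega

/-- `12 n + 20` -/
def coUs : Pr s Un Un :=
  .comp (ap2 appP .id .id) (.comp (ap2 appP .id .id)
    (ap2 appP (ap2 appP (ap2 appP .id .id) .id) coTw))

@[simp] theorem val_coUs (v : SV F s) (n : ℕ) :
    (coUs : Pr s Un Un).val v (un n) = un (12 * n + 20) := by
  simp only [coUs, val_comp, val_pair, val_id, val_appP, val_coTw, co_un_add]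
  congr 1
  ring

theorem cost_coUs (v : SV F s) (k : SC F s) (n : ℕ) :
    (coUs : Pr s Un Un).cost v k (un n) ≤ 1000 * n + 1000 := by
  have h0 := cost_coTw (F := F) (a := Un) v k (un (n + n + (n + n)))
  have h1 := cost_appP (s := s) (a := .unit) (F := F) v k (un n, un n)
  have h2 := cost_appP (s := s) (a := .unit) (F := F) v k (un (n + n), un (n + n))
  have h3 := cost_appP (s := s) (a := .unit) (F := F) v k
    (un (n + n + (n + n)), un (n + n + (n + n)))
  have h4 := cost_appP (s := s) (a := .unit) (F := F) v k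
    (un (n + n + (n + n) + (n + n + (n + n))), un (n + n + (n + n)))
  have h5 := cost_appP (s := s) (a := .unit) (F := F) v k
    (un (n + n + (n + n) + (n + n + (n + n)) + (n + n + (n + n))), un 20)
  simp only [coUs, cost_comp, cost_pair, cost_id, val_comp, val_pair, val_id, val_appP, val_coTw,
    co_un_add, co_un_length] at h0 h1 h2 h3 h4 h5 ⊢
  omega

/-- geometric progression; input `(u, (b, c))`, output `c, b c, b^2 c, ...` -/
def coPw : Pr s (.prod (.list a) (.prod .fld .fld)) Po :=
  .recD (ap2 .cons .snd (.comp (.pair .fst .mul) .self)) .nil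

@[simp] theorem val_coPw (v : SV F s) (x : Ty.D F (.prod (.list a) (.prod .fld .fld))) :
    (coPw : Pr s (.prod (.list a) (.prod .fld .fld)) Po).val v x =
      (List.range (List.length x.1)).map (fun k => (x.2.1 : F) ^ k * x.2.2) := by
  obtain ⟨u, b, c⟩ := x
  simp only [coPw, val_recD]
  generalize List.length u = n
  induction n generalizing c with
  | zero => simp [goV]
  | succ n ih =>
    simp only [goV, ap2, val_comp, val_pair, val_snd, val_fst, val_mul, val_self, val_cons] at ih ⊢
    rw [ih, List.range_succ_eq_map]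
    simp only [List.map_cons, List.map_map, pow_zero, one_mul]
    congr 1
    apply List.map_congr_left
    intro k _
    simp only [Function.comp, Nat.succ_eq_add_one, pow_succ]
    ring

theorem cost_coPw (v : SV F s) (k : SC F s) (x : Ty.D F (.prod (.list a) (.prod .fld .fld))) :
    (coPw : Pr s (.prod (.list a) (.prod .fld .fld)) Po).cost v k x ≤
      10 * List.length x.1 + 2 := by
  obtain ⟨u, b, c⟩ := x
  simp only [coPw, cost_recD]
  generalize List.length u = n
  induction n generalizing c with
  | zero => simp [goC]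
  | succ n ih =>
    have := ih (b * c)
    simp [goC] at this ⊢
    omega

/-- tail -/
def coTl : Pr s (.list a) (.list a) := onL .id .nil (.comp .snd .snd)

@[simp] theorem val_coTl (v : SV F s) (x : Ty.D F (.list a)) :
    (coTl : Pr s (.list a) (.list a)).val v x = (List.tail x : List _) := by
  cases x <;> simp [coTl]

theorem cost_coTl (v : SV F s) (k : SC F s) (x : Ty.D F (.list a)) :
    (coTl : Pr s (.list a) (.list a)).cost v k x ≤ 10 := by
  cases x <;> simp [coTl]

/-- head of a list of field elements -/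
def coHd : Pr s Po .fld := onL .id .zero (.comp .snd .fst)

@[simp] theorem val_coHd (v : SV F s) (x : Ty.D F Po) :
    (coHd : Pr s Po .fld).val v x = (List.getD x 0 0 : F) := by
  cases x <;> simp [coHd]

theorem cost_coHd (v : SV F s) (k : SC F s) (x : Ty.D F Po) :
    (coHd : Pr s Po .fld).cost v k x ≤ 10 := by
  cases x <;> simp [coHd]

/-- drop -/
def coDr : Pr s (.prod (.list b) (.list a)) (.list a) := .comp splitP .snd

@[simp] theorem val_coDr (v : SV F s) (x : Ty.D F (.prod (.list b) (.list a))) :
    (coDr : Pr s (.prod (.list b) (.list a)) (.list a)).val v x =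
      (List.drop (List.length x.1) x.2 : List _) := by
  simp [coDr]

theorem cost_coDr (v : SV F s) (k : SC F s) (x : Ty.D F (.prod (.list b) (.list a))) :
    (coDr : Pr s (.prod (.list b) (.list a)) (.list a)).cost v k x ≤
      24 * List.length x.1 + 9 := by
  have := cost_splitP v k x
  simp [coDr] at this ⊢
  omega

end prog

/-- input of the program -/
abbrev CoIn : Ty := .prod TB (.prod (.prod Po Un) (.prod Ma (.prod Ma (.prod Po Ma))))
/-- type of the power program -/
abbrev CoFr : Type := Pr [] (.prod TB (.prod (.prod Po (.prod Po Un)) Po)) Po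

section prog2
variable {F : Type} [Field F] [DecidableEq F]

/-- columns of a place; input `((tb, ((bits, e), (us, um))), a)` -/
def coTc (pR : CoFr) :
    Pr [] (.prod (.prod TB (.prod (.prod Po Un) (.prod Un Un))) .fld) (.list (.prod Ma Po)) :=
  lt (.comp .snd .inv)
  (lt (.comp (.pair (.comp .fst (.comp .fst .fst))
    (.pair (.pair (ap2 .cons .snd .nil) (.comp .fst (.comp .fst (.comp .snd .fst))))
      (ap2 .cons .zero .nil))) (.comp pR coHd))
  (lt (ap2 coDr (.comp .fst (.comp .fst (.comp .fst (.comp .snd (.comp .snd .snd)))))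
    (ap3 coPw (.comp .fst (.comp .fst (.comp .fst (.comp .snd (.comp .snd .fst)))))
      (.comp .fst .snd) (.comp .fst .snd)))
  (lt (ap2 coDr (.comp .fst (.comp .fst (.comp .fst (.comp .fst (.comp .snd (.comp .snd .snd))))))
    (ap3 coPw (.comp .fst (.comp .fst (.comp .fst (.comp .fst (.comp .snd (.comp .snd .fst))))))
      (.comp .fst .snd) (.comp .fst .snd)))
  (ap2 .cons (.pair .nil (ap2 appP (.comp .fst .snd) .snd))
    (ap2 .cons (.pair .nil (ap2 appP .snd (.comp .fst .snd))) .nil)))))

/-- geometric progression without its first terms -/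
def coPd (s m : ℕ) (b : F) : List F :=
  List.drop m ((List.range s).map (fun k => b ^ k * b))

theorem val_coTc (pR : CoFr) (tb : List (List F) × List (List F)) (qb : List F) (e : List Unit)
    (us um : List Unit) (a : F) :
    ((coTc pR).val () ((tb, ((qb, e), (us, um))), a) : List (List (List F) × List F)) =
      [([], coPd us.length um.length a⁻¹ ++ coPd us.length um.length
          ((pR.val () (tb, (([a⁻¹], (qb, e)), [0])) : List F).getD 0 0)),
       ([], coPd us.length um.length
          ((pR.val () (tb, (([a⁻¹], (qb, e)), [0])) : List F).getD 0 0) ++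
          coPd us.length um.length a⁻¹)] := by
  simp [coTc, coPd]

theorem cost_coTc (pR : CoFr) (tb : List (List F) × List (List F)) (qb : List F) (e : List Unit)
    (us um : List Unit) (a : F) :
    (coTc pR).cost () () ((tb, ((qb, e), (us, um))), a) ≤
      pR.cost () () (tb, (([a⁻¹], (qb, e)), [0])) + 100 * (us.length + um.length) + 200 := by
  set b' : F := (pR.val () (tb, (([a⁻¹], (qb, e)), [0])) : List F).getD 0 0 with hb'
  have hl : ∀ b : F, (coPd us.length um.length b).length ≤ us.length := by
    intro b; simp [coPd]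
  have h1 := cost_coPw (F := F) (s := []) (a := .unit) () () (us, (a⁻¹, a⁻¹))
  have h2 := cost_coPw (F := F) (s := []) (a := .unit) () () (us, (b', b'))
  have h3 := cost_coDr (F := F) (s := []) (b := .unit) (a := .fld) () ()
    (um, (List.range us.length).map (fun k => (a⁻¹) ^ k * a⁻¹))
  have h4 := cost_coDr (F := F) (s := []) (b := .unit) (a := .fld) () ()
    (um, (List.range us.length).map (fun k => b' ^ k * b'))
  have h5 := cost_appP (F := F) (s := []) (a := .fld) () ()
    (coPd us.length um.length a⁻¹, coPd us.length um.length b')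
  have h6 := cost_appP (F := F) (s := []) (a := .fld) () ()
    (coPd us.length um.length b', coPd us.length um.length a⁻¹)
  have h7 := cost_coHd (F := F) (s := []) () () (pR.val () (tb, (([a⁻¹], (qb, e)), [0])))
  have h8 := hl a⁻¹
  have h9 := hl b'
  simp only [coPd] at h5 h6 h8 h9
  simp only [coTc, cost_lt, cost_comp, cost_pair, cost_fst, cost_snd, cost_inv, cost_nil,
    cost_cons, cost_zero, val_comp, val_pair, val_fst, val_snd, val_inv, val_nil, val_cons,
    val_zero, val_coHd, val_coPw, val_coDr, ap2, ap3] at h1 h2 h3 h4 h5 h6 h7 ⊢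
  rw [← hb']
  omega

/-- powers modulo the fibres; input `((tb, (bits, e)), (gs, fibres))` -/
def coGf (pR : CoFr) : Pr [] (.prod (.prod TB (.prod Po Un)) (.prod Ma Ma)) Ma :=
  zipP (.comp (.pair (.comp .fst .fst)
    (.pair (.pair (.comp .snd .fst) (.comp .fst .snd)) (.comp .snd .snd))) pR)

theorem val_coGf (pR : CoFr) (tb : List (List F) × List (List F)) (qb : List F) (e : List Unit)
    (gs fs : List (List F)) :
    ((coGf pR).val () ((tb, (qb, e)), (gs, fs)) : List (List F)) =
      List.zipWith (fun g f => (pR.val () (tb, ((g, (qb, e)), f)) : List F)) gs fs := by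
  simp [coGf]

theorem cost_coGf (pR : CoFr) (tb : List (List F) × List (List F)) (qb : List F) (e : List Unit)
    (gs fs : List (List F)) (B : ℕ)
    (hB : ∀ g ∈ gs, ∀ f ∈ fs, pR.cost () () (tb, ((g, (qb, e)), f)) ≤ B) :
    (coGf pR).cost () () ((tb, (qb, e)), (gs, fs)) ≤ (B + 61) * gs.length + 15 := by
  have := cost_zipP_le (F := F) (s := []) (c := .prod TB (.prod Po Un)) (a := Po) (b := Po)
    (d := Po) (.comp (.pair (.comp .fst .fst)
    (.pair (.pair (.comp .snd .fst) (.comp .fst .snd)) (.comp .snd .snd))) pR) () ()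
    ((tb, (qb, e)), (gs, fs)) (B + 12) (fun g hg f hf => by
      have := hB g hg f hf
      simp
      omega)
  simpa [coGf, add_assoc] using this

/-- type of the tree program -/
abbrev CoTr : Type := Pr [] (.prod TB (.prod Un (.prod (.list (.prod .unit Po))
    (.prod Ma (.prod Ma Ma))))) (.list (.prod .unit (.prod Ma (.prod Ma Ma))))
/-- type of the trace program -/
abbrev CoLa : Type := Pr [] (.prod TB (.prod Un (.prod Ma Ma))) Po

/-- column of a factor; input `((tb, (us, um)), ((), (A, (Y, Y'))))` -/
def coFc (pL : CoLa) : Pr [] (.prod (.prod TB (.prod Un Un)) (.prod .unit (.prod Ma (.prod Ma Ma))))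
    (.prod Ma Po) :=
  .pair (.comp .snd (.comp .snd .fst))
    (ap2 appP
      (ap2 coDr (.comp .fst (.comp .snd .snd))
        (.comp (.pair (.comp .fst .fst) (.pair (.comp .fst (.comp .snd .fst))
          (.pair (.comp .snd (.comp .snd .fst)) (.comp .snd (.comp .snd (.comp .snd .fst)))))) pL))
      (ap2 coDr (.comp .fst (.comp .snd .snd))
        (.comp (.pair (.comp .fst .fst) (.pair (.comp .fst (.comp .snd .fst))
          (.pair (.comp .snd (.comp .snd .fst)) (.comp .snd (.comp .snd (.comp .snd .snd)))))) pL)))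

theorem val_coFc (pL : CoLa) (tb : List (List F) × List (List F)) (us um : List Unit)
    (A Y Y' : List (List F)) (w : Unit) :
    ((coFc pL).val () ((tb, (us, um)), (w, (A, (Y, Y')))) : List (List F) × List F) =
      (A, List.drop um.length (pL.val () (tb, (us, (A, Y))) : List F) ++
        List.drop um.length (pL.val () (tb, (us, (A, Y'))) : List F)) := by
  simp [coFc]

theorem cost_coFc (pL : CoLa) (tb : List (List F) × List (List F)) (us um : List Unit)
    (A Y Y' : List (List F)) (w : Unit)
    (hl : List.length (pL.val () (tb, (us, (A, Y))) : List F) = us.length) :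
    (coFc pL).cost () () ((tb, (us, um)), (w, (A, (Y, Y')))) ≤
      pL.cost () () (tb, (us, (A, Y))) + pL.cost () () (tb, (us, (A, Y'))) +
        100 * (us.length + um.length) + 200 := by
  have h1 := cost_coDr (F := F) (s := []) (b := .unit) (a := .fld) () ()
    (um, (pL.val () (tb, (us, (A, Y)))))
  have h2 := cost_coDr (F := F) (s := []) (b := .unit) (a := .fld) () ()
    (um, (pL.val () (tb, (us, (A, Y')))))
  have h3 := cost_appP (F := F) (s := []) (a := .fld) () ()
    (List.drop um.length (pL.val () (tb, (us, (A, Y))) : List F),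
      List.drop um.length (pL.val () (tb, (us, (A, Y'))) : List F))
  simp only [List.length_drop, hl] at h3
  simp only [coFc, cost_comp, cost_pair, cost_fst, cost_snd, val_comp, val_pair, val_fst,
    val_snd, val_coDr, ap2] at h1 h2 h3 ⊢
  omega

/-- the whole program -/
def coMain (pF : Pr [] (.prod Ma Po) Ma) (pR : CoFr)
    (pY : Pr [] (.prod (.prod Po Un) (.prod Un (.prod Un (.prod Po Ma)))) Ma) (pT : CoTr)
    (pL : CoLa) : Pr [] CoIn (.list (.prod Ma Po)) :=
  -- `un n`
  lt (.comp (.comp .snd (.comp .snd .fst)) coLen)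
  -- `un s`
  (lt (.comp .snd coUs)
  -- the fibres
  (lt (ap2 pF (.comp .fst (.comp .fst (.comp .snd (.comp .snd .fst))))
    (.comp .fst (.comp .fst (.comp .snd (.comp .snd (.comp .snd (.comp .snd .fst)))))))
  -- the powers
  (lt (.comp (.pair (.comp .fst (.comp .fst (.comp .fst (.pair .fst (.comp .snd .fst)))))
      (.pair (.comp .fst (.comp .fst (.comp .fst
        (.comp .snd (.comp .snd (.comp .snd (.comp .snd .snd))))))) .snd)) (coGf pR))
  -- `Y`
  (lt (.comp (.pair (.comp .fst (.comp .fst (.comp .fst (.comp .fst (.comp .snd .fst)))))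
      (.pair (.comp .fst (.comp .fst .snd)) (.pair (.comp .fst (.comp .fst (.comp .fst .snd)))
        (.comp .fst (.comp .fst (.comp .fst (.comp .fst
          (.comp .snd (.comp .snd (.comp .snd .snd)))))))))) pY)
  -- `Y'`
  (lt (.comp (.pair (.comp .fst (.comp .fst (.comp .fst (.comp .fst (.comp .fst (.comp .snd .fst))))))
      (.pair (.comp .fst (.comp .fst (.comp .fst .snd)))
        (.pair (.comp .fst (.comp .fst (.comp .fst (.comp .fst .snd))))
        (.pair (.comp .fst (.comp .fst (.comp .fst (.comp .fst (.comp .fst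
          (.comp .snd (.comp .snd (.comp .snd (.comp .snd .fst)))))))))
          (.comp .fst .snd))))) pY)
  -- the tree
  (lt (.comp (.pair (.comp .fst (.comp .fst (.comp .fst (.comp .fst (.comp .fst (.comp .fst .fst))))))
      (.pair (.comp .fst (.comp .fst (.comp .fst (.comp .fst .snd))))
      (.pair (.comp (.pair .star (.comp .fst (.comp .fst (.comp .fst (.comp .fst (.comp .fst
          (.comp .fst (.comp .snd (.comp .snd (.comp .snd .fst)))))))))) (mapP .id))
      (.pair (.comp (.pair (.comp .fst (.comp .fst (.comp .fst (.comp .fst .snd))))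
        (.comp .fst (.comp .fst (.comp .fst (.comp .fst (.comp .fst
          (.comp .fst (.comp .snd (.comp .snd .fst))))))))) (mapP (ap3 fitP .fst .zero .snd)))
      (.pair (.comp .fst .snd) .snd))))) pT)
  -- `un (n - 1)`
  (lt (.comp (.comp .fst (.comp .fst (.comp .fst (.comp .fst (.comp .fst (.comp .fst .snd)))))) coTl)
  -- the result
  (ap2 appP
    (.comp (.comp (.pair
      (.pair (.comp .fst (.comp .fst (.comp .fst (.comp .fst
          (.comp .fst (.comp .fst (.comp .fst (.comp .fst .fst))))))))
        (.pair (.comp .fst (.comp .fst (.comp .fst (.comp .fst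
          (.comp .fst (.comp .fst (.comp .fst (.comp .fst (.comp .snd .fst)))))))))
          (.pair (.comp .fst (.comp .fst (.comp .fst (.comp .fst (.comp .fst (.comp .fst .snd))))))
            .snd)))
      (.comp .fst (.comp .fst (.comp .fst (.comp .fst
          (.comp .fst (.comp .fst (.comp .fst (.comp .fst
            (.comp .snd (.comp .snd (.comp .snd (.comp .snd .fst))))))))))))) (mapP (coTc pR)))
      flatP)
    (.comp (.pair
      (.pair (.comp .fst (.comp .fst (.comp .fst (.comp .fst
          (.comp .fst (.comp .fst (.comp .fst (.comp .fst .fst))))))))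
        (.pair (.comp .fst (.comp .fst (.comp .fst (.comp .fst (.comp .fst (.comp .fst .snd))))))
            .snd))
      (.comp .fst .snd)) (mapP (coFc pL)))))))))))

/-- the list of the local factors, with labels -/
def coGs (hs : List (List F)) : List (Unit × List F) := hs.map (fun h => ((), h))
/-- the polynomial with rows of length `s` -/
def coA (s : ℕ) (S : List (List F)) : List (List F) := S.map (fun r => fit s 0 r)

theorem val_coMain (pF : Pr [] (.prod Ma Po) Ma) (pR : CoFr)
    (pY : Pr [] (.prod (.prod Po Un) (.prod Un (.prod Un (.prod Po Ma)))) Ma) (pT : CoTr)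
    (pL : CoLa) (tb : List (List F) × List (List F)) (qb : List F) (e : List Unit) (n s : ℕ)
    (S hs : List (List F)) (as : List F) (gs fs gs' Y Y' : List (List F))
    (out : List (Unit × (List (List F) × (List (List F) × List (List F)))))
    (hn : S.length = n) (hs' : s = 12 * n + 20) (hfs : pF.val () (S, as) = fs)
    (hgs' : List.zipWith (fun g f => (pR.val () (tb, ((g, (qb, e)), f)) : List F)) gs fs = gs')
    (hY : pY.val () ((qb, e), (un s, (un n, (as, gs)))) = Y)
    (hY' : pY.val () ((qb, e), (un s, (un n, (as, gs')))) = Y')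
    (hout : pT.val () (tb, (un s, (coGs hs, (coA s S, (Y, Y'))))) = out) :
    ((coMain pF pR pY pT pL).val () (tb, ((qb, e), (S, (hs, (as, gs))))) :
      List (List (List F) × List F)) =
      (as.map (fun a => ((coTc pR).val () ((tb, ((qb, e), (un s, un (n - 1)))), a) :
        List (List (List F) × List F)))).flatten ++
      out.map (fun o => ((coFc pL).val () ((tb, (un s, un (n - 1))), o) :
        List (List F) × List F)) := by
  subst hs'
  have h1 : List.tail (un n) = un (n - 1) := by simp [un]
  simp only [coMain, val_lt, val_comp, val_pair, val_fst, val_snd, val_star, val_coLen, hn,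
    val_coUs, hfs, hY, val_mapP, val_id, ap2, ap3, val_fitP, val_zero,
    co_un_length, val_coTl, h1, val_appP, val_flatP]
  simp only [coGs, coA] at hout
  erw [val_coGf, hgs', hY', hout]

theorem cost_coMain (pF : Pr [] (.prod Ma Po) Ma) (pR : CoFr)
    (pY : Pr [] (.prod (.prod Po Un) (.prod Un (.prod Un (.prod Po Ma)))) Ma) (pT : CoTr)
    (pL : CoLa) (tb : List (List F) × List (List F)) (qb : List F) (e : List Unit) (n s : ℕ)
    (S hs : List (List F)) (as : List F) (gs fs gs' Y Y' : List (List F))
    (out : List (Unit × (List (List F) × (List (List F) × List (List F)))))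
    (hn : S.length = n) (hs' : s = 12 * n + 20) (hfs : pF.val () (S, as) = fs)
    (hgs' : List.zipWith (fun g f => (pR.val () (tb, ((g, (qb, e)), f)) : List F)) gs fs = gs')
    (hY : pY.val () ((qb, e), (un s, (un n, (as, gs)))) = Y)
    (hY' : pY.val () ((qb, e), (un s, (un n, (as, gs')))) = Y')
    (hout : pT.val () (tb, (un s, (coGs hs, (coA s S, (Y, Y'))))) = out)
    (BF BG BY BY' BT Bt BL : ℕ) (cF : pF.cost () () (S, as) ≤ BF)
    (cG : (coGf pR).cost () () ((tb, (qb, e)), (gs, fs)) ≤ BG)
    (cY : pY.cost () () ((qb, e), (un s, (un n, (as, gs)))) ≤ BY)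
    (cY' : pY.cost () () ((qb, e), (un s, (un n, (as, gs')))) ≤ BY')
    (cT : pT.cost () () (tb, (un s, (coGs hs, (coA s S, (Y, Y'))))) ≤ BT)
    (cTc : ∀ a ∈ as, (coTc pR).cost () () ((tb, ((qb, e), (un s, un (n - 1)))), a) ≤ Bt)
    (cFc : (mapP (coFc pL)).cost () () ((tb, (un s, un (n - 1))), out) ≤ BL) :
    (coMain pF pR pY pT pL).cost () () (tb, ((qb, e), (S, (hs, (as, gs))))) ≤
      BF + BG + BY + BY' + BT + BL + (Bt + 300) * as.length + 20 * hs.length +
        (20 * s + 2000) * n + 5000 := by
  subst hs'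
  have h1 : List.tail (un n) = un (n - 1) := by simp [un]
  have k1 := cost_coLen (F := F) (s := []) (a := Po) () () S
  have k2 := cost_coUs (F := F) (s := []) () () n
  have k3 := cost_mapP_le (F := F) (s := []) (c := .unit) (a := Po) (b := .prod .unit Po) .id () ()
    ((), hs) 1 (fun _ _ => by simp)
  have k4 := cost_mapP_le (F := F) (s := []) (c := Un) (a := Po) (b := Po)
    (ap3 fitP .fst .zero .snd) () () (un (12 * n + 20), S) (20 * (12 * n + 20) + 10)
    (fun r hr => by
      have := cost_fitP (F := F) (s := []) (b := .unit) (a := .fld) () ()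
        (un (12 * n + 20), ((0 : F), r))
      simp at this ⊢
      omega)
  have k5 := cost_coTl (F := F) (s := []) (a := .unit) () () (un n)
  have k6 := cost_mapP_le (F := F) (s := []) (c := .prod TB (.prod (.prod Po Un) (.prod Un Un)))
    (a := .fld) (b := .list (.prod Ma Po)) (coTc pR) () ()
    ((tb, ((qb, e), (un (12 * n + 20), un (n - 1)))), as) Bt (fun a ha => cTc a ha)
  have k7 := cost_flatP (F := F) (s := []) (a := .prod Ma Po) () ()
    (as.map (fun a => ((coTc pR).val () ((tb, ((qb, e), (un (12 * n + 20), un (n - 1)))), a) :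
        List (List (List F) × List F)))) 2 (fun y hy => by
      obtain ⟨a, ha, rfl⟩ := List.mem_map.1 hy
      rw [val_coTc]; rfl)
  have k8 := cost_appP (F := F) (s := []) (a := .prod Ma Po) () ()
    ((as.map (fun a => ((coTc pR).val () ((tb, ((qb, e), (un (12 * n + 20), un (n - 1)))), a) :
        List (List (List F) × List F)))).flatten,
      out.map (fun o => ((coFc pL).val () ((tb, (un (12 * n + 20), un (n - 1))), o) :
        List (List F) × List F)))
  have k9 : List.length (as.map (fun a => ((coTc pR).val () ((tb, ((qb, e),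
      (un (12 * n + 20), un (n - 1)))), a) : List (List (List F) × List F)))).flatten =
      2 * as.length := by
    rw [List.length_flatten, List.map_map]
    have : ((List.length ∘ fun a => ((coTc pR).val () ((tb, ((qb, e),
      (un (12 * n + 20), un (n - 1)))), a) : List (List (List F) × List F)))) = fun _ => 2 := by
      ext a
      simp only [Function.comp]
      rw [val_coTc]; rfl
    rw [this]
    simp
    ring
  simp only [coMain, cost_lt, cost_comp, cost_pair, cost_fst, cost_snd, cost_star, cost_id,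
    cost_nil, cost_zero, val_lt, val_comp, val_pair, val_fst, val_snd, val_star, val_coLen, hn,
    val_coUs, hfs, hY, val_mapP, val_id, ap2, ap3, val_fitP, val_zero,
    co_un_length, val_coTl, h1, val_appP, val_flatP, List.length_map, k9] at k1 k2 k3 k4 k5 k6 k7 k8 ⊢
  simp only [coGs, coA] at hout cT
  obtain ⟨xT, hxT⟩ : ∃ x, pT.cost () () (tb, (un (12 * n + 20), (hs.map (fun h => ((), h)),
    (S.map (fun r => fit (12 * n + 20) 0 r), (Y, Y'))))) = x := ⟨_, rfl⟩
  rw [hxT] at cT
  erw [val_coGf, hgs', hY', hout, hxT]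
  have e1 : ∀ A B C D E G H I J K' L' M' N' O' : ℕ, A ≤ 14 * n + 8 → B ≤ 1000 * n + 1000 → C ≤ BF →
      D ≤ BG → E ≤ BY → G ≤ BY' → H ≤ (1 + 13) * hs.length + 5 →
      I ≤ (20 * (12 * n + 20) + 10 + 13) * n + 5 → J ≤ BT → K' ≤ 10 →
      L' ≤ (Bt + 13) * as.length + 5 → M' ≤ (20 * 2 + 71) * as.length + 40 → N' ≤ BL →
      O' ≤ 20 * (2 * as.length) + 5 →
      A + B + C + D + E + G + H + I + J + K' + L' + M' + N' + O' + 1000 ≤
      BF + BG + BY + BY' + BT + BL + (Bt + 300) * as.length + 20 * hs.length +
        (20 * (12 * n + 20) + 2000) * n + 5000 := by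
    intros
    nlinarith
  refine le_trans ?_ (e1 _ _ _ _ _ _ _ _ _ _ _ _ _ _ k1 k2 cF cG cY cY' k3 k4 cT k5 k6 k7 cFc k8)
  omega

end prog2

theorem co_exists_ofFn {α : Type} (l : List α) (m : ℕ) (h : l.length = m) :
    ∃ f : Fin m → α, l = List.ofFn f := by
  subst h
  exact ⟨fun i => l.get i, (List.ofFn_get l).symm⟩

theorem co_map_ofFn {α β : Type} {m : ℕ} (f : Fin m → α) (g : α → β) :
    (List.ofFn f).map g = List.ofFn (fun i => g (f i)) := by
  rw [List.map_ofFn]; rfl

theorem co_zip_ofFn {α β γ : Type} {m : ℕ} (f : α → β → γ) (a : Fin m → α) (b : Fin m → β) :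
    List.zipWith f (List.ofFn a) (List.ofFn b) = List.ofFn (fun i => f (a i) (b i)) := by
  apply List.ext_getElem
  · simp
  · intro i h1 h2
    simp

/-- the polynomial over `R` -/
noncomputable def coMp {K R : Type} [Field K] [CommRing R] (π : K[X] →+* R) (B : List (List K)) :
    R[X] := mpol (B.map (fun v => π (pol v)))

/-- the polynomial over `R`, lower coefficients only -/
noncomputable def coRp {K R : Type} [Field K] [CommRing R] (π : K[X] →+* R) (B : List (List K)) :
    R[X] := pol (B.map (fun v => π (pol v)))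

section alg
variable {K R : Type} [Field K] [CommRing R] (π : K[X] →+* R)

theorem co_rp (B : List (List K)) :
    (letI := (π.comp (C : K →+* K[X])).toAlgebra; rp (π X) B) = coRp π B := by
  simp only [rp, coRp]
  congr 1
  apply List.map_congr_left
  intro r _
  exact co_aeval π (pol r)

theorem co_mrp (B : List (List K)) :
    (letI := (π.comp (C : K →+* K[X])).toAlgebra; mrp (π X) B) = coMp π B := by
  have := co_rp π B
  simp only [mrp, coMp, mpol] at this ⊢
  rw [this]
  simp [coRp]

theorem co_mbiv (S : List (List K)) : (mbiv S).map π = coMp π S := by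
  rw [mbiv, biv, coMp, mpol]
  simp only [Polynomial.map_add, Polynomial.map_pow, map_X, co_map_pol, List.map_map,
    List.length_map]
  rfl

theorem co_Mp_A (s : ℕ) (S : List (List K)) (h : ∀ r ∈ S, r.length ≤ s) :
    coMp π (coA s S) = coMp π S := by
  rw [coMp, coMp, coA, List.map_map]
  congr 1
  apply List.map_congr_left
  intro r hr
  simp only [Function.comp]
  rw [co_pol_fit s r (h r hr)]

theorem co_hd0_A (s : ℕ) (S : List (List K)) (h : ∀ r ∈ S, r.length ≤ s) :
    hd0 (coA s S) = hd0 S := by
  rw [hd0, hd0, coA, List.map_map]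
  apply List.map_congr_left
  intro r hr
  simp only [Function.comp]
  rw [co_getD_fit s r (h r hr)]

theorem co_Mp_eps (ε : R →+* K) (he : ∀ f : K[X], ε (π f) = f.eval 0) (B : List (List K)) :
    (coMp π B).map ε = mpol (hd0 B) := by
  rw [coMp, co_map_mpol, List.map_map, hd0]
  congr 1
  apply List.map_congr_left
  intro v _
  simp only [Function.comp]
  rw [he, ← coeff_zero_eq_eval_zero, co_coeff_pol]

end alg

theorem co_coprime {K : Type} [Field K] {p q : K[X]} (hp : Irreducible p) (hq : Irreducible q)
    (mp : p.Monic) (mq : q.Monic) (h : p ≠ q) : IsCoprime p q := by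
  rw [hp.coprime_iff_not_dvd]
  intro hd
  exact h (eq_of_monic_of_associated mp mq (hp.associated_of_dvd hq hd))

/-- consequences of the assumption on the local factors -/
theorem co_hs {K R : Type} [Field K] [CommRing R] {π : K[X] →+* R} {ε : R →+* K} {s n : ℕ}
    {S hs : List (List K)} {F : Fin hs.length → R[X]} (hS : S.length = n)
    (LF : LocalFact π ε s n hs.length (mbiv S) F)
    (hF : ∀ i, (F i).map ε = mpol (hs.get i)) :
    hs.Nodup ∧ (∀ h ∈ hs, Irreducible (mpol h)) ∧ (∀ h ∈ hs, 1 ≤ h.length) ∧
    (hs.map mpol).prod = mpol (hd0 S) ∧ hs ≠ [] ∧ hs.length ≤ n ∧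
    (hs.map List.length).sum = n := by
  have hnd : hs.Nodup := by
    rw [List.nodup_iff_injective_get]
    intro i j hij
    apply LF.inj
    simp only
    rw [hF, hF, hij]
  have hirr : ∀ h ∈ hs, Irreducible (mpol h) := by
    intro h hh
    obtain ⟨i, rfl⟩ := List.get_of_mem hh
    rw [← hF]; exact LF.irr i
  have hlen : ∀ h ∈ hs, 1 ≤ h.length := by
    intro h hh
    by_contra hc
    have : h = [] := List.length_eq_zero_iff.1 (by omega)
    subst this
    have := (hirr [] hh).not_isUnit
    apply this
    simp [mpol, pol]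
  have hprod : (hs.map mpol).prod = mpol (hd0 S) := by
    have h1 := congrArg (Polynomial.map ε) LF.prod
    rw [Polynomial.map_prod, co_mbiv, co_Mp_eps π ε LF.eps] at h1
    rw [← h1]
    have h2 : hs.map mpol = List.ofFn (fun i => (F i).map ε) := by
      simp only [hF]
      rw [← co_map_ofFn, List.ofFn_get]
    rw [h2, List.prod_ofFn]
  have hne : hs ≠ [] := by
    intro h
    have h1 : (mpol (hd0 S)).natDegree = n := by
      rw [co_mpol_natDegree]; simp [hd0, hS]
    rw [← hprod, h] at h1
    simp at h1
    have := LF.pos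
    omega
  have hsum : (hs.map List.length).sum = n := by
    have h1 : (mpol (hd0 S)).natDegree = n := by
      rw [co_mpol_natDegree]; simp [hd0, hS]
    have h3 := natDegree_multiset_prod_of_monic (t := (↑(hs.map mpol) : Multiset K[X]))
      (by
        intro f hf
        rw [Multiset.mem_coe] at hf
        obtain ⟨h, _, rfl⟩ := List.mem_map.1 hf
        exact co_mpol_monic h)
    rw [Multiset.prod_coe, Multiset.map_coe, Multiset.sum_coe] at h3
    rw [← hprod, h3] at h1
    rw [← h1, List.map_map]
    congr 1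
    apply List.map_congr_left
    intro h _
    simp only [Function.comp]
    rw [co_mpol_natDegree]
  refine ⟨hnd, hirr, hlen, hprod, hne, ?_, hsum⟩
  rw [← hsum]
  have : ∀ l : List (List K), (∀ h ∈ l, 1 ≤ h.length) → l.length ≤ (l.map List.length).sum := by
    intro l
    induction l with
    | nil => simp
    | cons h t ih =>
      intro hl
      have h1 := hl h (by simp)
      have h2 := ih (fun h hh => hl h (by simp [hh]))
      simp only [List.length_cons, List.map_cons, List.sum_cons]
      omega
  exact this hs hlen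

/-- identification of the lifted factors -/
theorem co_alg (h7 : StmtUniq) {K R : Type} [Field K] [CommRing R] {π : K[X] →+* R}
    {ε : R →+* K} {s n : ℕ}
    {S hs : List (List K)} {F : Fin hs.length → R[X]} (hS : S.length = n)
    (LF : LocalFact π ε s n hs.length (mbiv S) F)
    (hF : ∀ i, (F i).map ε = mpol (hs.get i))
    (Bs : Fin hs.length → List (List K)) (hperm : (List.ofFn (fun i => hd0 (Bs i))).Perm hs)
    (hprod : (List.ofFn (fun i => coMp π (Bs i))).prod = (mbiv S).map π) :
    ∃ r : Equiv.Perm (Fin hs.length), ∀ i, F (r i) = coMp π (Bs i) ∧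
      hd0 (Bs i) = hs.get (r i) := by
  obtain ⟨hnd, hirr, hlen, hpr, hne, -, -⟩ := co_hs hS LF hF
  have hmem : ∀ i, ∃ j, hs.get j = hd0 (Bs i) := by
    intro i
    have : hd0 (Bs i) ∈ hs := by
      rw [← hperm.mem_iff]
      simp [List.mem_ofFn]
    exact List.get_of_mem this
  choose r0 hr0 using hmem
  have hinj : Function.Injective r0 := by
    intro i j hij
    have h1 : hd0 (Bs i) = hd0 (Bs j) := by rw [← hr0, ← hr0, hij]
    have h2 : (List.ofFn (fun i => hd0 (Bs i))).Nodup := hperm.nodup_iff.2 hnd
    rw [List.nodup_ofFn] at h2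
    exact h2 h1
  have hbij : Function.Bijective r0 := Finite.injective_iff_bijective.1 hinj
  set r : Equiv.Perm (Fin hs.length) := Equiv.ofBijective r0 hbij with hr
  have hrr : ∀ i, r i = r0 i := fun i => rfl
  refine ⟨r, ?_⟩
  have hsur : Function.Surjective ε := by
    intro c
    exact ⟨π (C c), by rw [LF.eps]; simp⟩
  have hnil : ∀ x, ε x = 0 → IsNilpotent x := by
    intro x hx
    obtain ⟨f, rfl⟩ := LF.surj x
    rw [LF.eps, ← coeff_zero_eq_eval_zero, ← X_dvd_iff] at hx
    refine ⟨s, ?_⟩
    rw [← map_pow, LF.ker]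
    exact pow_dvd_pow_of_dvd hx s
  have key := h7 R K ε hsur hnil hs.length (fun i => F (r i)) (fun i => coMp π (Bs i))
    (fun i => LF.Fmonic _) (fun i => co_mpol_monic _)
    (by
      rw [← List.prod_ofFn (f := fun i => coMp π (Bs i)), hprod, ← LF.prod]
      exact Equiv.prod_comp r F)
    (fun i => by
      rw [hF, co_Mp_eps π ε LF.eps, hrr, hr0])
    (fun i j hij => by
      rw [hF, hF]
      apply co_coprime (hirr _ (List.get_mem _ _)) (hirr _ (List.get_mem _ _))
        (co_mpol_monic _) (co_mpol_monic _)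
      rw [← hF, ← hF]
      intro h
      exact hij (r.injective (LF.inj h)))
  intro i
  exact ⟨congrFun key i, by rw [hrr, hr0]⟩

/-! ### the matrices `Y` -/

/-- the rows over the small field -/
noncomputable def coYk (K : Type) {L : Type} [Field K] [Field L] [Algebra K L] (n s : ℕ)
    (as : List L) (gs : List (List L)) : List (List K) :=
  (List.range n).map (fun i => (List.range s).map (fun k =>
    -(Algebra.trace K L (List.zipWith (fun a g => g.getD i 0 * a⁻¹ ^ (k + 1)) as gs).sum)))

theorem co_Y_map {K L : Type} [Field K] [Fintype K] [Field L] [Fintype L] [Algebra K L]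
    (h2 : Module.finrank K L = 2) (Q : ℕ) (hQ : Fintype.card K = Q) (n s : ℕ)
    (as : List L) (gs : List (List L)) :
    (List.range n).map (fun i => (List.range s).map (fun k =>
      -(((List.zipWith (fun a g => g.getD i 0 * a⁻¹ ^ (k + 1)) as gs).sum) +
        ((List.zipWith (fun a g => g.getD i 0 * a⁻¹ ^ (k + 1)) as gs).sum) ^ Q))) =
      Ty.map (algebraMap K L) Ma (coYk K n s as gs) := by
  subst hQ
  rw [co_mapMa, coYk, List.map_map]
  apply List.map_congr_left
  intro i _
  simp only [Function.comp, List.map_map]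
  apply List.map_congr_left
  intro k _
  simp only [Function.comp, map_neg]
  rw [co_trace h2]

theorem co_Y_pol {K L R : Type} [Field K] [Field L] [Algebra K L] [CommRing R]
    (π : K[X] →+* R) (n s N : ℕ) (a : Fin N → L) (g : Fin N → Fin n → L) :
    coRp π (coYk K n s (List.ofFn a) (rows g)) = Yp π s a g := by
  rw [coRp, coYk, List.map_map, co_pol_range, Yp, Finset.sum_range]
  apply Finset.sum_congr rfl
  intro i _
  refine congrArg (fun c => C c * X ^ (i : ℕ)) ?_
  refine congrArg π ?_
  rw [co_pol_range, Pser, ← Finset.sum_neg_distrib]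
  apply Finset.sum_congr rfl
  intro k _
  rw [rows, co_zip_ofFn, List.sum_ofFn, map_sum, map_neg, neg_mul]
  refine congrArg (fun c => -(C c * X ^ k)) ?_
  apply Finset.sum_congr rfl
  intro j _
  congr 2
  simp [List.getD]

theorem co_Y_sh {K L : Type} [Field K] [Field L] [Algebra K L] (n s : ℕ)
    (as : List L) (gs : List (List L)) : Sh s (coYk K n s as gs) ∧
      (coYk K n s as gs).length = n := by
  constructor
  · intro r hr
    simp only [coYk, List.mem_map] at hr
    obtain ⟨i, _, rfl⟩ := hr
    simp
  · simp [coYk]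

/-! ### the powers -/

theorem co_gfrob {K L : Type} [Field K] [Field L] [Algebra K L] (S : List (List K)) (n Q : ℕ)
    (hS : S.length = n) (a : L) (g : Fin n → L) (r : List L) (hr : r.length = n)
    (hd : fib (mbiv S) a ∣ pol (List.ofFn g) ^ Q - pol r) :
    r = List.ofFn (gfrob (mbiv S) Q a g) := by
  have hf := co_fib S a
  set f := (Ty.map (algebraMap K L) Ma S).map (fun r => (pol r).eval a) with hfd
  have hfl : f.length = n := by simp [hfd, co_mapMa, hS]
  rw [hf] at hd
  have h1 : pol (List.ofFn g) ^ Q %ₘ mpol f = pol r := by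
    rw [co_mpol_congr_mod hd, modByMonic_eq_self_iff (co_mpol_monic f)]
    rw [degree_eq_natDegree (co_mpol_monic f).ne_zero, co_mpol_natDegree, hfl, ← hr]
    exact co_degree_pol r
  apply List.ext_getElem
  · simp [hr]
  · intro i h2 h3
    simp only [List.getElem_ofFn, gfrob]
    rw [co_gp_pol, hf, h1, co_coeff_pol]
    simp [List.getD, h2]

theorem co_pow_val {L : Type} [Field L] (b : L) (m : ℕ) (r : List L)
    (hd : mpol [(0 : L)] ∣ pol [b] ^ m - pol r) : r.getD 0 0 = b ^ m := by
  have h1 : mpol [(0 : L)] = X := by simp [mpol, pol]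
  rw [h1, X_dvd_iff] at hd
  simp only [coeff_sub, co_coeff_pol, pol, mul_zero, add_zero, ← C_pow, coeff_C_zero] at hd
  linear_combination -hd

theorem co_Pd {L : Type} [Field L] (n s : ℕ) (b : L) : coPd s (n - 1) b = tcol n s b := by
  apply List.ext_getElem
  · simp [coPd, tcol]
  · intro i h1 h2
    simp [coPd, tcol, pow_succ]

theorem co_drop {K L : Type} [Field K] [Field L] (φ : K →+* L) (s m : ℕ) (z : List K)
    (h : z.length = s) : List.drop m (z.map φ) =
      (List.range (s - m)).map (fun k => φ (z.getD (m + k) 0)) := by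
  apply List.ext_getElem
  · simp [h]
  · intro i h1 h2
    simp only [List.length_drop, List.length_map] at h1
    have h3 : m + i < z.length := by omega
    simp [List.getD, h3]

theorem co_lgc6 (n : ℕ) : lgc (13 * n + 21) ≤ 6 * lgc (n + 1) := by
  have h1 : Nat.clog 2 (13 * n + 21) ≤ 5 + Nat.clog 2 (n + 1) := by
    apply Nat.clog_le_of_le_pow
    have := Nat.le_pow_clog (b := 2) (by norm_num) (n + 1)
    rw [pow_add]
    omega
  simp only [lgc]
  omega

theorem co_lgc_mono {a b : ℕ} (h : a ≤ b) : lgc a ≤ lgc b := by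
  have := Nat.clog_mono_right 2 h
  simp only [lgc]
  omega

theorem co_mu_sum (m4 : ∀ a b, mu a + mu b ≤ mu (a + b)) {ι : Type} (t : Finset ι) (f : ι → ℕ) :
    ∑ i ∈ t, mu (f i) ≤ mu (∑ i ∈ t, f i) := by
  classical
  induction t using Finset.induction_on with
  | empty => simp
  | insert a t ha ih =>
    rw [Finset.sum_insert ha, Finset.sum_insert ha]
    exact (Nat.add_le_add_left ih _).trans (m4 _ _)

theorem co_ar1 (n s T : ℕ) (hs : s = 12 * n + 20) (h : (n + 1) * (n + 1) ≤ T) :
    (100 * (s + (n - 1)) + 200 + 300) * (2 * n + 2) ≤ 5000 * T := by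
  have h1 : 100 * (s + (n - 1)) + 200 + 300 ≤ 2500 * (n + 1) := by omega
  calc (100 * (s + (n - 1)) + 200 + 300) * (2 * n + 2) ≤ 2500 * (n + 1) * (2 * n + 2) :=
        Nat.mul_le_mul_right _ h1
    _ = 5000 * ((n + 1) * (n + 1)) := by ring
    _ ≤ 5000 * T := Nat.mul_le_mul_left _ h

theorem co_ar2 (x y m T u : ℕ) (h1 : x * m ≤ y * T) (h2 : (u + 200 + 300) * m ≤ 5000 * T) :
    (x + u + 200 + 300) * m ≤ (y + 5000) * T := by
  have e1 : (x + u + 200 + 300) * m = x * m + (u + 200 + 300) * m := by ring
  have e2 : (y + 5000) * T = y * T + 5000 * T := by ring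
  rw [e1, e2]
  omega

theorem co_ar3 (A1 A2 A3 A4 A5 A6 T x y w : ℕ) (h1 : x ≤ (A6 + 5000) * T) (h2 : y ≤ 20 * T)
    (h3 : w + 5000 ≤ 5000 * T) :
    A1 * T + (A2 + 137) * T + A3 * T + A3 * T + A4 * T + (A5 + 2305) * T + x + y + w + 5000 ≤
      (A1 + (A2 + 137) + 2 * A3 + A4 + (A5 + 2305) + (A6 + 5000) + 20 + 5000) * T := by
  calc A1 * T + (A2 + 137) * T + A3 * T + A3 * T + A4 * T + (A5 + 2305) * T + x + y + w + 5000
      ≤ A1 * T + (A2 + 137) * T + A3 * T + A3 * T + A4 * T + (A5 + 2305) * T + (A6 + 5000) * T +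
        20 * T + 5000 * T := by omega
    _ = _ := by ring

theorem co_ar4 (r n T : ℕ) (hr : r ≤ n) (h : (n + 1) * (n + 1) ≤ T) :
    r * (2300 * (n + 1)) + 5 ≤ 2305 * T := by
  nlinarith

theorem co_ar5 (x y n T : ℕ) (h1 : x * (2 * n + 2) ≤ y * T) (h : (n + 1) * (n + 1) ≤ T) :
    (x + 61) * (2 * n + 2) + 15 ≤ (y + 137) * T := by
  nlinarith

theorem co_ar6 (n s T : ℕ) (hs : s = 12 * n + 20) (h : (n + 1) * (n + 1) ≤ T) :
    (20 * s + 2000) * n + 5000 ≤ 5000 * T := by
  subst hs
  nlinarith

theorem co_ar7 (n r s : ℕ) (hs : s = 12 * n + 20) (hr : r ≤ n) :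
    s * n + r ≤ 21 * (n + 1) * (n + 1) := by
  subst hs
  nlinarith

/-- naturality of the input of the tree program -/
theorem co_inT {K L : Type} [Field K] [Field L] [Algebra K L] (tb : List (List K) × List (List K))
    (s : ℕ) (S hs Y Y' : List (List K)) :
    Ty.map (algebraMap K L) (.prod TB (.prod Un (.prod (.list (.prod .unit Po))
      (.prod Ma (.prod Ma Ma))))) (tb, (un s, (coGs hs, (coA s S, (Y, Y'))))) =
    (Ty.map (algebraMap K L) TB tb, (un s, (coGs (Ty.map (algebraMap K L) Ma hs),
      (coA s (Ty.map (algebraMap K L) Ma S), (Ty.map (algebraMap K L) Ma Y,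
        Ty.map (algebraMap K L) Ma Y'))))) := by
  have h1 : Ty.map (algebraMap K L) Un (un s) = un s := co_mapUn _ _
  have h2 : Ty.map (algebraMap K L) (.list (.prod .unit Po)) (coGs hs) =
      coGs (Ty.map (algebraMap K L) Ma hs) := by
    rw [co_mapMa]
    simp only [coGs, List.map_map]
    show List.map _ (List.map _ hs) = _
    rw [List.map_map]
    rfl
  have h3 : Ty.map (algebraMap K L) Ma (coA s S) = coA s (Ty.map (algebraMap K L) Ma S) := by
    rw [co_mapMa, co_mapMa]
    simp only [coA, List.map_map]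
    apply List.map_congr_left
    intro r _
    simp only [Function.comp]
    have := co_fit_map (algebraMap K L) s 0 r
    rw [map_zero] at this
    exact this.symm
  rw [← h2, ← h3]
  conv_rhs => rw [← h1]
  rfl

theorem co_inL {K L : Type} [Field K] [Field L] [Algebra K L] (tb : List (List K) × List (List K))
    (s : ℕ) (A Y : List (List K)) :
    Ty.map (algebraMap K L) (.prod TB (.prod Un (.prod Ma Ma))) (tb, (un s, (A, Y))) =
    (Ty.map (algebraMap K L) TB tb, (un s, (Ty.map (algebraMap K L) Ma A,
      Ty.map (algebraMap K L) Ma Y))) := by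
  have h1 : Ty.map (algebraMap K L) Un (un s) = un s := co_mapUn _ _
  conv_rhs => rw [← h1]
  rfl


theorem specCols (h1 : SpecFib) (h2 : SpecFrob) (h3 : SpecY) (h4 : SpecTree) (h5 : SpecLam) (h6 : SpecNat)
    (h7 : StmtUniq) (h0 : SpecUnits) : SpecCols := by
  obtain ⟨pF, CF, hF⟩ := h1
  obtain ⟨pR, CR, hR⟩ := h2
  obtain ⟨pY, CY, kY, hY⟩ := h3
  obtain ⟨pT, CT, kT, hT⟩ := h4 .unit
  obtain ⟨pL, CL, kL, hL⟩ := h5
  obtain ⟨m1, m2, -, m4, -, m6, m7, -, m9, -, m11, m12, -, -⟩ := h0
  obtain ⟨c4, hc4⟩ := m9 4
  obtain ⟨c23, hc23⟩ := m9 23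
  obtain ⟨c21, hc21⟩ := m11 21
  obtain ⟨c1, hc1⟩ := m12 1
  refine ⟨coMain pF pR pY pT pL, CF * c4 + (2 * CR * c1 + 137) + 2 * (CY * 6 ^ kY * c23) +
    CT * 6 ^ kT * (c21 + 1) + (2 * CL * c21 + 2305) + (2 * CR * (lgc 2 * mu 2) + 5000) + 20 + 5000,
    kY + kT + kL + 1, ?_⟩
  intro K L _ _ _ _ _ _ _ q e n tb S hs R _ π ε F a g hfr hcard htb hSn hSh LF hFi
  set φ := algebraMap K L with hφ
  obtain ⟨s, hs12⟩ : ∃ s, s = 12 * n + 20 := ⟨_, rfl⟩
  rw [← hs12] at LF ⊢
  have hn1 : 1 ≤ n := LF.pos
  have hs1 : 1 ≤ s := by omega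
  set tbL : List (List L) × List (List L) := Ty.map φ TB tb with htbL
  have htbL' : IsTb tbL := co_isTb φ tb htb
  set SL : List (List L) := Ty.map φ Ma S with hSL
  set hsL : List (List L) := Ty.map φ Ma hs with hhsL
  set as : List L := List.ofFn a with has
  obtain ⟨hnd, hirr, hlen, hpr, hne, hrn, hsum⟩ := co_hs hSn LF hFi
  have hSLn : SL.length = n := by rw [hSL, co_mapMa]; simpa using hSn
  have hSLsh : Sh (n + 1) SL := by
    intro r hr
    rw [hSL, co_mapMa] at hr
    obtain ⟨r', hr', rfl⟩ := List.mem_map.1 hr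
    simpa using hSh r' hr'
  have hrows : Sh n (rows g) ∧ (rows g).length = as.length := by
    constructor
    · intro r hr
      simp only [rows, List.mem_ofFn] at hr
      obtain ⟨j, rfl⟩ := hr
      simp
    · simp [rows, has]
  -- the fibres
  set f : Fin (2 * n + 2) → List L := fun j => SL.map (fun r => (pol r).eval (a j)) with hf
  have hfs : pF.val () (SL, as) = List.ofFn f := by
    rw [(hF L (n + 1) SL as hSLsh).1, has, co_map_ofFn]
  have cF := (hF L (n + 1) SL as hSLsh).2
  have hfl : ∀ j, (f j).length = n := by intro j; simp [hf, hSLn]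
  have hfib : ∀ j, fib (mbiv S) (a j) = mpol (f j) := fun j => co_fib S (a j)
  -- the powers
  have hRj := fun j => hR L tbL (List.ofFn (g j)) (f j) q e htbL' (by rw [hfl]; simp)
  set g' : Fin (2 * n + 2) → Fin n → L := fun j => gfrob (mbiv S) (q ^ e) (a j) (g j) with hg'
  have hgs' : List.zipWith (fun g f => (pR.val () (tbL, ((g, (bits L q, un e)), f)) : List L))
      (rows g) (List.ofFn f) = rows g' := by
    rw [rows, co_zip_ofFn, rows]
    congr 1
    ext1 j
    obtain ⟨hr1, hr2, -⟩ := hRj j
    exact co_gfrob S n (q ^ e) hSn (a j) (g j) _ (by rw [hr1, hfl]) (by rw [hfib]; exact hr2)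
  have hrows' : Sh n (rows g') ∧ (rows g').length = as.length := by
    constructor
    · intro r hr
      simp only [rows, List.mem_ofFn] at hr
      obtain ⟨j, rfl⟩ := hr
      simp
    · simp [rows, has]
  -- the matrices
  set Yk := coYk K n s as (rows g) with hYk
  set Yk' := coYk K n s as (rows g') with hYk'
  have hY1 : pY.val () ((bits L q, un e), (un s, (un n, (as, rows g)))) = Ty.map φ Ma Yk := by
    rw [(hY L q e s n as (rows g) hrows.1 hrows.2).1]
    exact co_Y_map hfr (q ^ e) hcard n s as (rows g)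
  have hY2 : pY.val () ((bits L q, un e), (un s, (un n, (as, rows g')))) = Ty.map φ Ma Yk' := by
    rw [(hY L q e s n as (rows g') hrows'.1 hrows'.2).1]
    exact co_Y_map hfr (q ^ e) hcard n s as (rows g')
  have cY1 := (hY L q e s n as (rows g) hrows.1 hrows.2).2
  have cY2 := (hY L q e s n as (rows g') hrows'.1 hrows'.2).2
  obtain ⟨hYs, hYl⟩ := co_Y_sh (K := K) n s as (rows g)
  obtain ⟨hYs', hYl'⟩ := co_Y_sh (K := K) n s as (rows g')
  rw [← hYk] at hYs hYl
  rw [← hYk'] at hYs' hYl'
  -- the tree
  have hSs : ∀ r ∈ S, r.length ≤ s := fun r hr => by rw [hSh r hr]; omega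
  have hAl : (coA s S).length = n := by simp [coA, hSn]
  have hAs : Sh s (coA s S) := by
    intro r hr
    simp only [coA, List.mem_map] at hr
    obtain ⟨r', _, rfl⟩ := hr
    simp
  have hTK := hT K tb s (coGs hs) (coA s S) Yk Yk' htb hs1 (by simpa [coGs] using hne)
    (by
      intro x hx
      simp only [coGs, List.mem_map] at hx
      obtain ⟨h, hh, rfl⟩ := hx
      exact hlen h hh)
    (by
      rw [coGs, List.pairwise_map]
      rw [List.pairwise_iff_get]
      intro i j hij
      apply co_coprime (hirr _ (List.get_mem _ _)) (hirr _ (List.get_mem _ _))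
        (co_mpol_monic _) (co_mpol_monic _)
      rw [← hFi, ← hFi]
      intro h
      exact (ne_of_lt hij) (LF.inj h))
    (by
      rw [coGs, List.map_map, co_hd0_A s S hSs, ← hpr]
      rfl)
    hAs hYs hYs' (by rw [hYl, hAl]) (by rw [hYl', hAl])
  obtain ⟨outK, houtK⟩ : ∃ x : List (Unit × (List (List K) × (List (List K) × List (List K)))),
    pT.val () (tb, (un s, (coGs hs, (coA s S, (Yk, Yk'))))) = x := ⟨_, rfl⟩
  simp only [houtK] at hTK
  obtain ⟨hT1, hT2, hT3, cT⟩ := hTK
  obtain ⟨hN1, hN2⟩ := h6 _ _ pT K L φ (tb, (un s, (coGs hs, (coA s S, (Yk, Yk')))))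
  rw [co_inT, houtK] at hN1
  rw [co_inT] at hN2
  have hlenK : outK.length = hs.length := by
    have := hT1.length_eq
    simpa [coGs] using this
  obtain ⟨o, ho⟩ := co_exists_ofFn outK hs.length hlenK
  rw [ho] at hT1 hT2 hT3 hN1
  have hperm : (List.ofFn (fun i => hd0 (o i).2.1)).Perm hs := by
    have := hT1.map Prod.snd
    rw [co_map_ofFn, co_map_ofFn, coGs, List.map_map] at this
    simpa [Function.comp_def] using this
  have hoS : ∀ i, Sh s (o i).2.1 ∧ Sh s (o i).2.2.1 ∧ Sh s (o i).2.2.2 ∧
      (o i).2.2.1.length = (o i).2.1.length ∧ (o i).2.2.2.length = (o i).2.1.length := by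
    intro i
    exact hT2 (o i) (by simp [List.mem_ofFn])
  have htau : (π X) ^ s = 0 := by
    rw [← map_pow, LF.ker]
  have hTR := @hT3 R _ ((π.comp (C : K →+* K[X])).toAlgebra) (π X) htau
  obtain ⟨hTR1, hTR2⟩ := hTR
  have hprod : (List.ofFn (fun i => coMp π (o i).2.1)).prod = (mbiv S).map π := by
    rw [co_mrp, co_Mp_A π s S hSs, ← co_mbiv, co_map_ofFn] at hTR1
    rw [← hTR1]
    congr 2
    ext1 i
    rw [co_mrp]
  obtain ⟨r, hr⟩ := co_alg h7 hSn LF hFi (fun i => (o i).2.1) hperm hprod
  have hol : ∀ i, (o i).2.1.length = (hs.get (r i)).length := by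
    intro i
    rw [← (hr i).2]
    simp [hd0]
  have hol1 : ∀ i, 1 ≤ (o i).2.1.length := by
    intro i
    rw [hol]
    exact hlen _ (List.get_mem _ _)
  have hLi := fun i => hL K tb s (o i).2.1 (o i).2.2.1 htb hs1 (hoS i).1 (hoS i).2.1 (hol1 i)
    (hoS i).2.2.2.1
  have hLi' := fun i => hL K tb s (o i).2.1 (o i).2.2.2 htb hs1 (hoS i).1 (hoS i).2.2.1 (hol1 i)
    (hoS i).2.2.2.2
  obtain ⟨z, hz⟩ : ∃ z : Fin hs.length → List K, ∀ i,
    pL.val () (tb, (un s, ((o i).2.1, (o i).2.2.1))) = z i := ⟨_, fun i => rfl⟩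
  obtain ⟨z', hz'⟩ : ∃ z : Fin hs.length → List K, ∀ i,
    pL.val () (tb, (un s, ((o i).2.1, (o i).2.2.2))) = z i := ⟨_, fun i => rfl⟩
  simp only [hz] at hLi
  simp only [hz'] at hLi'
  have hlam : ∀ (i : Fin hs.length) (Y Yi : List (List K)) (zi : List K), zi.length = s →
      (letI := (π.comp (C : K →+* K[X])).toAlgebra; mrp (π X) (o i).2.1 ∣ rp (π X) Y - rp (π X) Yi) →
      (letI := (π.comp (C : K →+* K[X])).toAlgebra; (aeval (π X) (pol zi) : R) =
        lam (mrp (π X) (o i).2.1) (rp (π X) Yi * derivative (mrp (π X) (o i).2.1))) →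
      lam (F (r i)) (coRp π Y * derivative (F (r i))) =
        π (∑ k ∈ Finset.range s, Polynomial.C (zi.getD k 0) * X ^ k) := by
    intro i Y Yi zi hzi hd he
    rw [co_aeval, co_mrp, co_rp] at he
    rw [co_mrp, co_rp, co_rp] at hd
    rw [co_pol_getD zi s hzi, he, (hr i).1]
    exact co_lam_congr (co_mpol_monic _) hd
  -- the trace program over `L`
  have hzL : ∀ i, pL.val () (tbL, (un s, (Ty.map φ Ma (o i).2.1, Ty.map φ Ma (o i).2.2.1))) =
        (z i).map φ ∧
      pL.cost () () (tbL, (un s, (Ty.map φ Ma (o i).2.1, Ty.map φ Ma (o i).2.2.1))) =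
        pL.cost () () (tb, (un s, ((o i).2.1, (o i).2.2.1))) := by
    intro i
    obtain ⟨e1, e2⟩ := h6 _ _ pL K L φ (tb, (un s, ((o i).2.1, (o i).2.2.1)))
    rw [co_inL] at e1 e2
    rw [hz] at e1
    exact ⟨e1, e2⟩
  have hzL' : ∀ i, pL.val () (tbL, (un s, (Ty.map φ Ma (o i).2.1, Ty.map φ Ma (o i).2.2.2))) =
        (z' i).map φ ∧
      pL.cost () () (tbL, (un s, (Ty.map φ Ma (o i).2.1, Ty.map φ Ma (o i).2.2.2))) =
        pL.cost () () (tb, (un s, ((o i).2.1, (o i).2.2.2))) := by
    intro i
    obtain ⟨e1, e2⟩ := h6 _ _ pL K L φ (tb, (un s, ((o i).2.1, (o i).2.2.2)))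
    rw [co_inL] at e1 e2
    rw [hz'] at e1
    exact ⟨e1, e2⟩
  -- the columns of the places
  have htc : ∀ b : L, ((coTc pR).val () ((tbL, ((bits L q, un e), (un s, un (n - 1)))), b) :
      List (List (List L) × List L)) = tcols n s (q ^ e) b := by
    intro b
    rw [val_coTc]
    obtain ⟨e1, e2, -⟩ := hR L tbL [b⁻¹] [0] q e htbL' rfl
    rw [co_pow_val b⁻¹ (q ^ e) _ e2, co_un_length, co_un_length, co_Pd, co_Pd]
    rfl
  have hmo : Ty.map φ (.list (.prod .unit (.prod Ma (.prod Ma Ma)))) (List.ofFn o) =
      List.ofFn (fun i => (((), (Ty.map φ Ma (o i).2.1, (Ty.map φ Ma (o i).2.2.1,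
        Ty.map φ Ma (o i).2.2.2))) : Unit × (List (List L) × (List (List L) × List (List L))))) := by
    show List.map _ (List.ofFn o) = _
    rw [co_map_ofFn]
    rfl
  rw [hmo] at hN1
  refine ⟨r, fun i => (o i).2.1, fun i k => (z i).getD k 0, fun i k => (z' i).getD k 0,
    ?_, ?_, ?_, ?_, ?_⟩
  · intro i
    refine ⟨(hoS i).1, hol1 i, ?_⟩
    rw [(hr i).1, coMp, mpol, List.length_map]
  · intro i
    have h := hTR2 (o i) (by simp [List.mem_ofFn])
    rw [← co_Y_pol]
    exact hlam i Yk _ (z i) (hLi i).1 h.1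
      (@(hLi i).2.1 R _ ((π.comp (C : K →+* K[X])).toAlgebra) (π X) htau)
  · intro i
    have h := hTR2 (o i) (by simp [List.mem_ofFn])
    rw [← co_Y_pol, hcard]
    exact hlam i Yk' _ (z' i) (hLi' i).1 h.2
      (@(hLi' i).2.1 R _ ((π.comp (C : K →+* K[X])).toAlgebra) (π X) htau)
  · rw [val_coMain pF pR pY pT pL tbL (bits L q) (un e) n s SL hsL as (rows g) (List.ofFn f)
      (rows g') (Ty.map φ Ma Yk) (Ty.map φ Ma Yk') _ hSLn hs12 hfs hgs' hY1 hY2 hN1]
    congr 1
    · rw [List.flatMap_def]
      congr 1
      apply List.map_congr_left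
      intro b _
      exact htc b
    · rw [co_map_ofFn]
      congr 1
      ext1 i
      rw [val_coFc, (hzL i).1, (hzL' i).1, co_un_length, co_drop φ s (n - 1) (z i) (hLi i).1,
        co_drop φ s (n - 1) (z' i) (hLi' i).1]
  · -- the cost
    set P := PL e q n with hP
    set W := ww (n + 1) with hW
    set k := kY + kT + kL + 1 with hk
    have hlq : 1 ≤ lgc q := by simp [lgc]
    have hln : 1 ≤ lgc (n + 1) := by simp [lgc]
    have heq : (e + 1) * lgc q ≤ P := by
      rw [hP, PL]
      exact Nat.le_mul_of_pos_right _ hln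
    have hlnP : lgc (n + 1) ≤ P := by
      rw [hP, PL]
      exact Nat.le_mul_of_pos_left _ (Nat.mul_pos (Nat.succ_pos e) hlq)
    have hP1 : 1 ≤ P := hln.trans hlnP
    have hWn : (n + 1) * (n + 1) ≤ W := m7 (n + 1)
    have hpow : ∀ j, j ≤ k → P ^ j * W ≤ P ^ k * W := fun j hj =>
      Nat.mul_le_mul_right _ (Nat.pow_le_pow_right hP1 hj)
    obtain ⟨T, hT'⟩ : ∃ T, T = P ^ k * W := ⟨_, rfl⟩
    have hT0 : W ≤ T := by
      have := hpow 0 (Nat.zero_le _)
      rw [hT']; simpa using this
    have hTP : P * W ≤ T := by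
      have := hpow 1 (by omega)
      rw [hT']; simpa using this
    have hTY : P ^ kY * W ≤ T := by rw [hT']; exact hpow kY (by omega)
    have hTT : P ^ kT * W ≤ T := by rw [hT']; exact hpow kT (by omega)
    have hTL : P ^ kL * W ≤ T := by rw [hT']; exact hpow kL (by omega)
    have hTn : (n + 1) * (n + 1) ≤ T := hWn.trans hT0
    have hasl : as.length = 2 * n + 2 := by simp [has]
    -- fibres
    have bF : pF.cost () () (SL, as) ≤ CF * c4 * T := by
      refine cF.trans ?_
      have e1 : SL.length + (n + 1) + as.length + 1 = 4 * (n + 1) := by rw [hSLn, hasl]; ring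
      rw [e1, mul_assoc]
      exact Nat.mul_le_mul_left _ ((hc4 n).trans (Nat.mul_le_mul_left _ hT0))
    -- powers
    have bG : (coGf pR).cost () () ((tbL, (bits L q, un e)), (rows g, List.ofFn f)) ≤
        (2 * CR * c1 + 137) * T := by
      have e1 := cost_coGf pR tbL (bits L q) (un e) (rows g) (List.ofFn f)
        (CR * P * mu (n + 1)) (fun x hx y hy => by
          simp only [rows, List.mem_ofFn] at hx hy
          obtain ⟨i, rfl⟩ := hx
          obtain ⟨j, rfl⟩ := hy
          have := (hR L tbL (List.ofFn (g i)) (f j) q e htbL' (by rw [hfl]; simp)).2.2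
          rw [hfl] at this
          refine this.trans (le_of_eq ?_)
          rw [hP, PL]; ring)
      refine e1.trans ?_
      rw [hrows.2, hasl]
      have e2 : (n + 1) * mu (n + 1) ≤ c1 * W := by
        have := hc1 n
        rwa [one_mul] at this
      have e3 : CR * P * mu (n + 1) * (2 * n + 2) ≤ 2 * CR * c1 * T := by
        calc CR * P * mu (n + 1) * (2 * n + 2) = 2 * CR * P * ((n + 1) * mu (n + 1)) := by ring
          _ ≤ 2 * CR * P * (c1 * W) := Nat.mul_le_mul_left _ e2
          _ = 2 * CR * c1 * (P * W) := by ring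
          _ ≤ 2 * CR * c1 * T := Nat.mul_le_mul_left _ hTP
      exact co_ar5 _ _ _ _ e3 hTn
    -- `Y`
    have hLY : PL e q (n + s) ≤ 6 * P := by
      rw [hP, PL, PL, hs12]
      have := co_lgc6 n
      have e1 : n + (12 * n + 20) + 1 = 13 * n + 21 := by ring
      rw [e1]
      calc (e + 1) * lgc q * lgc (13 * n + 21) ≤ (e + 1) * lgc q * (6 * lgc (n + 1)) :=
            Nat.mul_le_mul_left _ this
        _ = 6 * ((e + 1) * lgc q * lgc (n + 1)) := by ring
    have bYg : ∀ x, x ≤ CY * PL e q (n + s) ^ kY * ww (n + s + as.length + 1) →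
        x ≤ CY * 6 ^ kY * c23 * T := by
      intro x hx
      refine hx.trans ?_
      have e1 : ww (n + s + as.length + 1) ≤ c23 * W := by
        refine (m2 _ _ ?_).trans (hc23 n)
        rw [hasl, hs12]; omega
      calc CY * PL e q (n + s) ^ kY * ww (n + s + as.length + 1)
          ≤ CY * (6 * P) ^ kY * (c23 * W) :=
            Nat.mul_le_mul (Nat.mul_le_mul_left _ (Nat.pow_le_pow_left hLY _)) e1
        _ = CY * 6 ^ kY * c23 * (P ^ kY * W) := by rw [mul_pow]; ring
        _ ≤ CY * 6 ^ kY * c23 * T := Nat.mul_le_mul_left _ hTY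
    have bY1 := bYg _ cY1
    have bY2 := bYg _ cY2
    -- tree
    have hmu21 : ∀ x, x ≤ 21 * (n + 1) * (n + 1) → mu x ≤ c21 * W :=
      fun x hx => (m1 _ _ hx).trans (hc21 n)
    have bT : pT.cost () () (tbL, (un s, (coGs hsL, (coA s SL, (Ty.map φ Ma Yk, Ty.map φ Ma Yk')))))
        ≤ CT * 6 ^ kT * (c21 + 1) * T := by
      rw [hN2]
      refine cT.trans ?_
      rw [hAl]
      have e1 : lgc (s + n) ≤ 6 * P := by
        refine (co_lgc_mono (b := 13 * n + 21) (by omega)).trans ((co_lgc6 n).trans ?_)
        exact Nat.mul_le_mul_left _ hlnP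
      have e2 : mu (s * n + 1) ≤ c21 * W := by
        exact hmu21 _ (co_ar7 n 1 s hs12 hn1)
      calc CT * lgc (s + n) ^ kT * (mu (s * n + 1) + ww (n + 1))
          ≤ CT * (6 * P) ^ kT * (c21 * W + W) :=
            Nat.mul_le_mul (Nat.mul_le_mul_left _ (Nat.pow_le_pow_left e1 _))
              (Nat.add_le_add e2 le_rfl)
        _ = CT * 6 ^ kT * (c21 + 1) * (P ^ kT * W) := by rw [mul_pow]; ring
        _ ≤ CT * 6 ^ kT * (c21 + 1) * T := Nat.mul_le_mul_left _ hTT
    -- columns of the places
    have bTc : ∀ b ∈ as, (coTc pR).cost () () ((tbL, ((bits L q, un e), (un s, un (n - 1)))), b) ≤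
        CR * P * (lgc 2 * mu 2) + 100 * (s + (n - 1)) + 200 := by
      intro b _
      refine (cost_coTc pR tbL (bits L q) (un e) (un s) (un (n - 1)) b).trans ?_
      rw [co_un_length, co_un_length]
      have e1 := (hR L tbL [b⁻¹] [0] q e htbL' rfl).2.2
      have e2 : pR.cost () () (tbL, (([b⁻¹], (bits L q, un e)), [0])) ≤
          CR * P * (lgc 2 * mu 2) := by
        refine e1.trans ?_
        calc CR * (e + 1) * lgc q * lgc (List.length [(0 : L)] + 1) * mu (List.length [(0 : L)] + 1)
            = CR * ((e + 1) * lgc q) * (lgc 2 * mu 2) := by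
              simp only [List.length_singleton]; ring
          _ ≤ CR * P * (lgc 2 * mu 2) :=
            Nat.mul_le_mul_right _ (Nat.mul_le_mul_left _ heq)
      omega
    have bTc' : (CR * P * (lgc 2 * mu 2) + 100 * (s + (n - 1)) + 200 + 300) * as.length ≤
        (2 * CR * (lgc 2 * mu 2) + 5000) * T := by
      rw [hasl]
      generalize lgc 2 * mu 2 = x
      have e1 : CR * P * x * (2 * n + 2) ≤ 2 * CR * x * T := by
        have e2 : (n + 1) ≤ W := (Nat.le_mul_of_pos_left _ (Nat.succ_pos n)).trans hWn
        calc CR * P * x * (2 * n + 2) = 2 * CR * x * (P * (n + 1)) := by ring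
          _ ≤ 2 * CR * x * (P * W) := Nat.mul_le_mul_left _ (Nat.mul_le_mul_left _ e2)
          _ ≤ 2 * CR * x * T := Nat.mul_le_mul_left _ hTP
      exact co_ar2 _ _ _ _ _ e1 (co_ar1 n s T hs12 hTn)
    -- columns of the factors
    have bFc : (mapP (coFc pL)).cost () () ((tbL, (un s, un (n - 1))),
        List.ofFn (fun i => (((), (Ty.map φ Ma (o i).2.1, (Ty.map φ Ma (o i).2.2.1,
        Ty.map φ Ma (o i).2.2.2))) : Unit × (List (List L) × (List (List L) × List (List L))))))
        ≤ (2 * CL * c21 + 2305) * T := by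
      refine (cost_mapP (F := L) (coFc pL) () () _).trans ?_
      simp only
      rw [co_map_ofFn, List.sum_ofFn]
      have e1 : ∀ i, (coFc pL).cost () () ((tbL, (un s, un (n - 1))),
          (((), (Ty.map φ Ma (o i).2.1, (Ty.map φ Ma (o i).2.2.1,
          Ty.map φ Ma (o i).2.2.2))) : Unit × (List (List L) × (List (List L) × List (List L))))) +
            13 ≤ 2 * CL * P ^ kL * mu (s * (o i).2.1.length + 1) + 2300 * (n + 1) := by
        intro i
        have e2 := cost_coFc pL tbL (un s) (un (n - 1)) (Ty.map φ Ma (o i).2.1)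
          (Ty.map φ Ma (o i).2.2.1) (Ty.map φ Ma (o i).2.2.2) ()
          (by rw [(hzL i).1, List.length_map, (hLi i).1, co_un_length])
        rw [(hzL i).2, (hzL' i).2, co_un_length, co_un_length] at e2
        have e3 := (hLi i).2.2
        have e4 := (hLi' i).2.2
        have e5 : lgc ((o i).2.1.length + 1) ≤ P := by
          refine (co_lgc_mono ?_).trans hlnP
          have : (o i).2.1.length ≤ n := by
            rw [hol, ← hsum]
            exact List.le_sum_of_mem (List.mem_map_of_mem (List.get_mem _ _))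
          omega
        have e6 : CL * lgc ((o i).2.1.length + 1) ^ kL * mu (s * (o i).2.1.length + 1) ≤
            CL * P ^ kL * mu (s * (o i).2.1.length + 1) :=
          Nat.mul_le_mul_right _ (Nat.mul_le_mul_left _ (Nat.pow_le_pow_left e5 _))
        have e7 : 2 * CL * P ^ kL * mu (s * (o i).2.1.length + 1) =
            CL * P ^ kL * mu (s * (o i).2.1.length + 1) +
              CL * P ^ kL * mu (s * (o i).2.1.length + 1) := by ring
        rw [e7]
        omega
      have e8 : ∑ i : Fin hs.length, (o i).2.1.length = n := by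
        calc ∑ i : Fin hs.length, (o i).2.1.length = ∑ i : Fin hs.length, (hs.get (r i)).length :=
              Finset.sum_congr rfl (fun i _ => hol i)
          _ = ∑ i : Fin hs.length, (hs.get i).length :=
              Equiv.sum_comp r (fun i => (hs.get i).length)
          _ = (List.ofFn (fun i => (hs.get i).length)).sum := (List.sum_ofFn).symm
          _ = n := by
              rw [← hsum, ← co_map_ofFn, List.ofFn_get]
      have e9 : ∑ i : Fin hs.length, mu (s * (o i).2.1.length + 1) ≤ c21 * W := by
        refine (co_mu_sum m4 _ _).trans (hmu21 _ ?_)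
        rw [Finset.sum_add_distrib, ← Finset.mul_sum, e8]
        simp only [Finset.sum_const, Finset.card_univ, Fintype.card_fin, smul_eq_mul, mul_one]
        exact co_ar7 n _ s hs12 hrn
      have e10 := Finset.sum_le_sum (s := Finset.univ) (fun i (_ : i ∈ Finset.univ) => e1 i)
      have e13 : ∑ i : Fin hs.length,
          (2 * CL * P ^ kL * mu (s * (o i).2.1.length + 1) + 2300 * (n + 1)) =
          2 * CL * P ^ kL * ∑ i : Fin hs.length, mu (s * (o i).2.1.length + 1) +
            hs.length * (2300 * (n + 1)) := by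
        rw [Finset.sum_add_distrib, ← Finset.mul_sum]
        simp only [Finset.sum_const, Finset.card_univ, Fintype.card_fin, smul_eq_mul]
      rw [e13] at e10
      have e11 : 2 * CL * P ^ kL * ∑ i : Fin hs.length, mu (s * (o i).2.1.length + 1) ≤
          2 * CL * c21 * T := by
        calc 2 * CL * P ^ kL * ∑ i : Fin hs.length, mu (s * (o i).2.1.length + 1)
            ≤ 2 * CL * P ^ kL * (c21 * W) := Nat.mul_le_mul_left _ e9
          _ = 2 * CL * c21 * (P ^ kL * W) := by ring
          _ ≤ 2 * CL * c21 * T := Nat.mul_le_mul_left _ hTL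
      have e12 : hs.length * (2300 * (n + 1)) + 5 ≤ 2305 * T := co_ar4 _ _ _ hrn hTn
      rw [add_mul]
      omega
    have hhsl : hsL.length = hs.length := by rw [hhsL, co_mapMa]; simp
    have final := cost_coMain pF pR pY pT pL tbL (bits L q) (un e) n s SL hsL as (rows g)
      (List.ofFn f) (rows g') (Ty.map φ Ma Yk) (Ty.map φ Ma Yk') _ hSLn hs12 hfs hgs' hY1 hY2 hN1
      _ _ _ _ _ _ _ bF bG bY1 bY2 bT bTc bFc
    refine final.trans ?_
    rw [mul_assoc _ (P ^ k) W, ← hT', hhsl]
    have f1 : 20 * hs.length ≤ 20 * T := by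
      have : (n + 1) ≤ (n + 1) * (n + 1) := Nat.le_mul_of_pos_left _ (Nat.succ_pos n)
      omega
    exact co_ar3 _ _ _ _ _ _ _ _ _ _ bTc' f1 (co_ar6 n s T hs12 hTn)

end Pool.Agent.H330FB
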